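import Pool.Agent.T9h94.CZ.Spec4

/-!
# CZ, piece (B7): `G × center P` belongs to `Om (G × P) P`

Author: helper67.
-/

set_option autoImplicit false

namespace Pool.Agent.T9h67.CZ

open Pool.Agent.T9h94.CZ

theorem mem_resKer {M P : Type} [Group M] [Group P] {x : M} :
    x ∈ resKer M P ↔ ∀ χ : M →* P, χ x = 1 := by
  unfold resKer
  rw [Subgroup.mem_iInf]
  rfl

theorem resKer_map {M P : Type} [Group M] [Group P] (F : M →* M) :
    resKer M P ≤ (resKer M P).comap F := by
  intro x hx
  rw [Subgroup.mem_comap, mem_resKer]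
  intro χ
  exact mem_resKer.mp hx (χ.comp F)

/-- `(g, p) ↦ (g, 1)` -/
def F1 (G P : Type) [Group G] [Group P] : G × P →* G × P :=
  (MonoidHom.fst G P).prod 1

/-- `(g, p) ↦ (1, p)` -/
def F2 (G P : Type) [Group G] [Group P] : G × P →* G × P :=
  (1 : G × P →* G).prod (MonoidHom.snd G P)

theorem sOmSnd : SOmSnd := by
  intro G P _ _
  set R := resKer (G × P) P with hR
  let f : (G × P) ⧸ R →* (G × P) ⧸ R := QuotientGroup.map R R (F1 G P) (resKer_map _)
  let h : (G × P) ⧸ R →* (G × P) ⧸ R := QuotientGroup.map R R (F2 G P) (resKer_map _)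
  have hf : ∀ m, f (QuotientGroup.mk' R m) = QuotientGroup.mk' R (m.1, 1) := fun m => rfl
  have hh : ∀ m, h (QuotientGroup.mk' R m) = QuotientGroup.mk' R (1, m.2) := fun m => rfl
  have hs := QuotientGroup.mk'_surjective R
  have hid : Idem f h := by
    constructor
    · intro x
      obtain ⟨m, rfl⟩ := hs x
      rw [hf, hh, ← map_mul]
      congr 1
      exact Prod.ext (mul_one _) (one_mul _)
    · intro x y
      obtain ⟨m, rfl⟩ := hs x
      obtain ⟨n, rfl⟩ := hs y
      rw [hf, hh, ← map_mul, ← map_mul]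
      congr 1
      exact Prod.ext ((mul_one _).trans (one_mul _).symm) ((one_mul _).trans (mul_one _).symm)
  refine ⟨(Subgroup.center _).comap h, ⟨f, h, hid, rfl⟩, ?_⟩
  ext m
  rw [Subgroup.mem_comap, Subgroup.mem_comap, Subgroup.mem_comap, hh, Subgroup.mem_center_iff,
    Subgroup.mem_center_iff]
  constructor
  · intro h1 p
    have h2 := h1 (QuotientGroup.mk' R (1, p))
    rw [← map_mul, ← map_mul] at h2
    have h3 := (QuotientGroup.eq (s := R)).mp h2
    have h4 := mem_resKer.mp h3 (MonoidHom.snd G P)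
    have h5 : (p * m.2)⁻¹ * (m.2 * p) = 1 := h4
    exact (inv_mul_eq_one.mp h5)
  · intro h1 x
    obtain ⟨n, rfl⟩ := hs x
    rw [← map_mul, ← map_mul]
    congr 1
    exact Prod.ext ((mul_one _).trans (one_mul _).symm) (h1 n.2)

end Pool.Agent.T9h67.CZ
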